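import Pool.Agent.Helper30.WD.TDefs

/-! # Orthonormal bases of wavelets and the Parseval form (request T2 of MP_1deea1_an) -/

set_option autoImplicit false
open MeasureTheory Filter Topology Set
open scoped ENNReal ComplexConjugate

namespace Pool.Agent.Helper99.WD
open Pool.Agent.Helper30.WD

/-- Parseval identity for a Hilbert basis in extended nonnegative form. -/
theorem parseval_enorm {ι E : Type*} [NormedAddCommGroup E] [InnerProductSpace ℂ E]
    [CompleteSpace E] (b : HilbertBasis ι ℂ E) (x : E) :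
    ∑' i, ‖(inner ℂ (b i) x : ℂ)‖ₑ ^ 2 = ‖x‖ₑ ^ 2 := by
  have h := (b.hasSum_inner_mul_inner x x).mapL Complex.reCLM
  have e : ∀ i, Complex.reCLM ((inner ℂ x (b i) : ℂ) * inner ℂ (b i) x) =
      ‖(inner ℂ (b i) x : ℂ)‖ ^ 2 := by
    intro i
    rw [← inner_conj_symm x (b i), Complex.conj_mul', Complex.reCLM_apply]
    norm_cast
  have e2 : Complex.reCLM (inner ℂ x x : ℂ) = ‖x‖ ^ 2 := by
    rw [inner_self_eq_norm_sq_to_K, Complex.reCLM_apply]
    norm_cast
  simp only [e, e2] at h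
  have h3 := ENNReal.ofReal_tsum_of_nonneg (fun i => sq_nonneg ‖(inner ℂ (b i) x : ℂ)‖) h.summable
  rw [h.tsum_eq] at h3
  rw [← ofReal_norm, ← ENNReal.ofReal_pow (norm_nonneg _), h3]
  refine tsum_congr fun i => ?_
  rw [← ofReal_norm, ← ENNReal.ofReal_pow (norm_nonneg _)]

theorem norm_ek (k : ℤ) (ξ : ℝ) : ‖ek k ξ‖ = 1 := by
  unfold ek
  have : 2 * (Real.pi : ℂ) * Complex.I * k * ξ = ((2 * Real.pi * k * ξ : ℝ) : ℂ) * Complex.I := by
    push_cast
    ring
  rw [this, Complex.norm_exp_ofReal_mul_I]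

theorem conj_ek (k : ℤ) (ξ : ℝ) : conj (ek (-k) ξ) = ek k ξ := by
  unfold ek
  rw [← Complex.exp_conj]
  congr 1
  simp only [map_mul, Complex.conj_ofReal, Complex.conj_I, map_ofNat, map_intCast]
  push_cast
  ring

theorem continuous_ek (k : ℤ) : Continuous (ek k) := by
  unfold ek
  fun_prop

theorem memLp_ek_mul (k : ℤ) {F : ℝ → ℂ} (hF : MemLp F 2) : MemLp (fun η => ek k η * F η) 2 := by
  refine hF.of_le ((continuous_ek k).aestronglyMeasurable.mul hF.1) (Eventually.of_forall fun η => ?_)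
  rw [norm_mul, norm_ek, one_mul]

theorem memLp_wj {F : ℝ → ℂ} (hF : MemLp F 2) (j k : ℤ) : MemLp (wj F j k) 2 :=
  memLp_dil (-j) (memLp_ek_mul (-k) hF)

theorem N2_wj (F : ℝ → ℂ) (j k : ℤ) : N2 (wj F j k) = N2 F := by
  unfold wj
  rw [N2_dil]
  unfold N2
  refine lintegral_congr fun ξ => ?_
  rw [enorm_mul]
  have : ‖ek (-k) ξ‖ₑ = 1 := by
    rw [← ofReal_norm, norm_ek]
    simp
  rw [this, one_mul]

/-- The dilation is unitary. -/
theorem integral_dil (j : ℤ) (G H : ℝ → ℂ) :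
    ∫ ξ, dil j G ξ * conj (H ξ) = ∫ ξ, G ξ * conj (dil (-j) H ξ) := by
  have ha : (0 : ℝ) < (2 : ℝ) ^ j := by positivity
  have h1 := Measure.integral_comp_mul_left
    (fun η : ℝ => dil j G (((2 : ℝ) ^ j)⁻¹ * η) * conj (H (((2 : ℝ) ^ j)⁻¹ * η))) ((2 : ℝ) ^ j)
  have e1 : ∀ x : ℝ, ((2 : ℝ) ^ j)⁻¹ * ((2 : ℝ) ^ j * x) = x := fun x => by
    rw [← mul_assoc, inv_mul_cancel₀ ha.ne', one_mul]
  simp only [e1] at h1
  rw [h1, abs_of_pos (inv_pos.2 ha), ← integral_smul]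
  refine integral_congr_ae (Eventually.of_forall fun η => ?_)
  simp only [dil]
  have e2 : (2 : ℝ) ^ j * (((2 : ℝ) ^ j)⁻¹ * η) = η := by
    rw [← mul_assoc, mul_inv_cancel₀ ha.ne', one_mul]
  have e3 : (2 : ℝ) ^ (-j) = ((2 : ℝ) ^ j)⁻¹ := zpow_neg _ _
  rw [e2, e3, map_mul, Complex.conj_ofReal, Complex.real_smul]
  have e4 : (((2 : ℝ) ^ j)⁻¹ : ℝ) * ((2 : ℝ) ^ ((j : ℝ) / 2)) = (2 : ℝ) ^ (((-j : ℤ) : ℝ) / 2) := by
    rw [← zpow_neg, ← Real.rpow_intCast, ← Real.rpow_add (by norm_num)]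
    congr 1
    push_cast
    ring
  rw [← e4]
  push_cast
  ring

/-- The coefficients in the Parseval form are the wavelet coefficients. -/
theorem integral_dil_ek (F G : ℝ → ℂ) (j k : ℤ) :
    ∫ ξ, dil j G ξ * conj (F ξ) * ek k ξ = ∫ ξ, G ξ * conj (wj F j k ξ) := by
  unfold wj
  rw [← integral_dil]
  refine integral_congr_ae (Eventually.of_forall fun ξ => ?_)
  simp only
  rw [map_mul, conj_ek]
  ring

theorem pars_eq (F G : ℝ → ℂ) :
    ∑' j : ℤ, EE F (dil j G) = ∑' p : ℤ × ℤ, ‖∫ ξ, G ξ * conj (wj F p.1 p.2 ξ)‖ₑ ^ 2 := by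
  rw [ENNReal.tsum_prod (f := fun j k => ‖∫ ξ, G ξ * conj (wj F j k ξ)‖ₑ ^ 2)]
  refine tsum_congr fun j => ?_
  unfold EE
  refine tsum_congr fun k => ?_
  rw [integral_dil_ek]

theorem inner_toLp {G H : ℝ → ℂ} (hG : MemLp G 2) (hH : MemLp H 2) :
    (inner ℂ (hH.toLp H) (hG.toLp G) : ℂ) = ∫ ξ, G ξ * conj (H ξ) := by
  rw [L2.inner_def]
  refine integral_congr_ae ?_
  filter_upwards [hG.coeFn_toLp, hH.coeFn_toLp] with ξ h1 h2
  rw [h1, h2]
  simp only [RCLike.inner_apply]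

theorem enorm_toLp_sq {G : ℝ → ℂ} (hG : MemLp G 2) : ‖hG.toLp G‖ₑ ^ 2 = N2 G := by
  rw [Lp.enorm_toLp, N2_eq_eLpNorm]

theorem N2_eq_zero {G : ℝ → ℂ} (hG : AEStronglyMeasurable G) (h : N2 G = 0) :
    G =ᵐ[volume] 0 := by
  unfold N2 at h
  rw [lintegral_eq_zero_iff' (by fun_prop)] at h
  filter_upwards [h] with ξ hξ
  simpa using hξ

theorem T2_isPW_iff (F : ℝ → ℂ) (hF : MemLp F 2) :
    IsPW F ↔
      ((∀ j k j' k' : ℤ, ∫ ξ : ℝ, wj F j k ξ * conj (wj F j' k' ξ) = if j = j' ∧ k = k' then 1 else 0) ∧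
       (∀ G : ℝ → ℂ, MemLp G 2 → (∀ j k : ℤ, ∫ ξ : ℝ, G ξ * conj (wj F j k ξ) = 0) → G =ᵐ[volume] 0)) := by
  constructor
  · intro h
    refine ⟨fun j k j' k' => ?_, fun G hG h0 => ?_⟩
    · have hself : ∫ ξ : ℝ, wj F j k ξ * conj (wj F j k ξ) = 1 := by
        rw [selfint (memLp_wj hF j k), N2_wj, h.norm]
        simp
      by_cases hp : j = j' ∧ k = k'
      · rw [if_pos hp, ← hp.1, ← hp.2]
        exact hself
      · rw [if_neg hp]
        have h1 := h.pars (wj F j k) (memLp_wj hF j k)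
        rw [pars_eq, N2_wj, h.norm] at h1
        have hne : ((j, k) : ℤ × ℤ) ≠ (j', k') := fun h2 => hp (by simpa using h2)
        have h2 : ∑ p ∈ ({(j, k), (j', k')} : Finset (ℤ × ℤ)),
            ‖∫ ξ, wj F j k ξ * conj (wj F p.1 p.2 ξ)‖ₑ ^ 2 ≤ 1 := by
          rw [← h1]
          exact ENNReal.sum_le_tsum _
        rw [Finset.sum_pair hne] at h2
        simp only at h2
        rw [hself] at h2
        have h4 : ‖∫ ξ, wj F j k ξ * conj (wj F j' k' ξ)‖ₑ ^ 2 = 0 := by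
          by_contra hcon
          have h5 : (1:ℝ≥0∞) < 1 + ‖∫ ξ, wj F j k ξ * conj (wj F j' k' ξ)‖ₑ ^ 2 :=
            ENNReal.lt_add_right ENNReal.one_ne_top hcon
          have h6 : ‖(1:ℂ)‖ₑ ^ 2 = (1:ℝ≥0∞) := by simp
          rw [h6] at h2
          exact absurd h2 (not_le.2 h5)
        simpa using h4
    · refine N2_eq_zero hG.1 ?_
      rw [← h.pars G hG, pars_eq, ENNReal.tsum_eq_zero]
      intro p
      rw [h0]
      simp
  · rintro ⟨h1, h2⟩
    have hN : N2 F = 1 := by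
      have h3 := h1 0 0 0 0
      rw [selfint (memLp_wj hF 0 0), N2_wj] at h3
      simp only [and_self, if_true] at h3
      have h4 : (N2 F).toReal = 1 := by exact_mod_cast h3
      rw [← ENNReal.ofReal_toReal (N2_lt_top hF).ne, h4]
      simp
    refine ⟨hF, hN, fun G hG => ?_⟩
    rw [pars_eq]
    set v : ℤ × ℤ → Lp ℂ 2 (volume : Measure ℝ) :=
      fun p => (memLp_wj hF p.1 p.2).toLp (wj F p.1 p.2) with hv
    have hort : Orthonormal ℂ v := by
      rw [orthonormal_iff_ite]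
      intro p q
      rw [hv]
      simp only
      rw [inner_toLp, h1]
      refine if_congr ?_ rfl rfl
      constructor
      · rintro ⟨h3, h4⟩
        exact (Prod.ext h3 h4).symm
      · rintro rfl
        exact ⟨rfl, rfl⟩
    have hbot : (Submodule.span ℂ (Set.range v))ᗮ = ⊥ := by
      rw [Submodule.eq_bot_iff]
      intro g hg
      have h3 : (g : ℝ → ℂ) =ᵐ[volume] 0 := by
        refine h2 g (Lp.memLp g) fun j k => ?_
        have h4 : (inner ℂ (v (j, k)) g : ℂ) = 0 :=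
          Submodule.inner_right_of_mem_orthogonal (Submodule.subset_span (Set.mem_range_self (j, k))) hg
        have h5 : (Lp.memLp g).toLp (g : ℝ → ℂ) = g := Lp.toLp_coeFn g _
        rw [← inner_toLp (Lp.memLp g) (memLp_wj hF j k), h5]
        exact h4
      exact Lp.eq_zero_iff_ae_eq_zero.2 h3
    have h6 := parseval_enorm (HilbertBasis.mkOfOrthogonalEqBot hort hbot) (hG.toLp G)
    rw [HilbertBasis.coe_mkOfOrthogonalEqBot, enorm_toLp_sq] at h6
    rw [← h6]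
    refine tsum_congr fun p => ?_
    rw [hv]
    simp only
    rw [inner_toLp]

end Pool.Agent.Helper99.WD
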